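import Pool.Agent.Lib.MP_1ad8b2_co.H59.Main

/-!
Almost all finite posets are reconstructible; almost every finite poset is determined by two of its
cards and by any three of its cards.
-/

set_option autoImplicit false

namespace Pool.Agent.Results.MP_1ad8b2_co.AlmostAllPosets

/-- `P` is reconstructible: every poset with the same deck is isomorphic to `P`. -/
def Recon {α : Type} (P : PartialOrder α) : Prop :=
  ∀ (β : Type) (Q : PartialOrder β) (σ : α ≃ β),
    (∀ x, Nonempty (Subrel P.le (· ≠ x) ≃r Subrel Q.le (· ≠ σ x))) → Nonempty (P.le ≃r Q.le)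

/-- Two suitable cards of `P` determine `P`. -/
def SomeTwo {α : Type} (P : PartialOrder α) : Prop :=
  ∃ x y : α, x ≠ y ∧ ∀ (β : Type) (Q : PartialOrder β) (u v : β), u ≠ v →
    Nonempty (Subrel P.le (· ≠ x) ≃r Subrel Q.le (· ≠ u)) →
    Nonempty (Subrel P.le (· ≠ y) ≃r Subrel Q.le (· ≠ v)) → Nonempty (P.le ≃r Q.le)

/-- Any three cards of `P` determine `P`. -/
def AnyThree {α : Type} (P : PartialOrder α) : Prop :=
  ∀ (β : Type) (Q : PartialOrder β) (x : Fin 3 → α) (u : Fin 3 → β),
    Function.Injective x → Function.Injective u →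
    (∀ i, Nonempty (Subrel P.le (· ≠ x i) ≃r Subrel Q.le (· ≠ u i))) → Nonempty (P.le ≃r Q.le)

/-- Every poset of the size of `P`, all of whose subposets with `k` points removed embed in `P`,
is isomorphic to `P`. -/
def SubDet {α : Type} (k : ℕ) (P : PartialOrder α) : Prop :=
  ∀ (β : Type) (Q : PartialOrder β), Nat.card β = Nat.card α →
    (∀ T : Finset β, T.card + k = Nat.card β → Nonempty (Subrel Q.le (· ∈ T) ↪r P.le)) →
    Nonempty (P.le ≃r Q.le)

/-- All of the above. -/
def Good (n : ℕ) (P : PartialOrder (Fin n)) : Prop :=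
  Recon P ∧ SomeTwo P ∧ AnyThree P ∧ ∀ k, 200 * k ≤ n → SubDet k P

/-- Isomorphism of partial orders on `{0, ..., n-1}`. -/
def isoSetoid (n : ℕ) : Setoid (PartialOrder (Fin n)) where
  r P Q := Nonempty (P.le ≃r Q.le)
  iseqv :=
    { refl := fun _ => ⟨RelIso.refl _⟩
      symm := fun ⟨e⟩ => ⟨e.symm⟩
      trans := fun ⟨e⟩ ⟨e'⟩ => ⟨e.trans e'⟩ }

/-- For all large `n`, all but at most the fraction `2^(-n/20)` of the partial orders on `n` labelled
points, and all but at most the fraction `2^(-n/20)` of the isomorphism types of posets with `n`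
points, are good. -/
theorem result : ∃ n₀ : ℕ, ∀ n : ℕ, n₀ ≤ n →
    (Nat.card {P : PartialOrder (Fin n) // ¬ Good n P} : ℝ) ≤
      2 ^ (-(n : ℝ) / 20) * Nat.card (PartialOrder (Fin n)) ∧
    (Nat.card {c : Quotient (isoSetoid n) // ∃ P, Quotient.mk _ P = c ∧ ¬ Good n P} : ℝ) ≤
      2 ^ (-(n : ℝ) / 20) * Nat.card (Quotient (isoSetoid n)) :=
  Pool.Agent.Lib.MP_1ad8b2_co.H59.main

end Pool.Agent.Results.MP_1ad8b2_co.AlmostAllPosets
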